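import Pool.Agent.PRB.Case2

set_option autoImplicit false

/-!
# Prime ratios, the first case
-/

namespace Pool.Agent.PRB

/-- the first case: a smaller solution -/
theorem case1 (p l a b v : ℕ) (hp : p.Prime) (hp8 : p % 8 = 3 ∨ p % 8 = 5) (hl : l.Prime)
    (h2l : 2 * l = p ^ 2 + 1) (ha : 0 < a) (hb : 0 < b) (hab : a.Coprime b)
    (hpar : (a + b) % 2 = 1) (hpb : ¬ p ∣ b)
    (hv : v ^ 2 = (p ^ 2 * a ^ 2 + b ^ 2) ^ 2 + 4 * a ^ 2 * b ^ 2) :
    ∃ x y u' v' : ℕ, 0 < x ∧ 0 < y ∧ (y ≤ a ∨ y ≤ b) ∧ x ^ 2 + p ^ 2 * y ^ 2 = u' ^ 2 ∧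
      x ^ 2 + (p ^ 2 + 1) * y ^ 2 = v' ^ 2 := by
  have : Fact p.Prime := ⟨hp⟩
  have : Fact l.Prime := ⟨hl⟩
  have hl4 := l_mod p l hp8 h2l
  have hpodd : p % 2 = 1 := by omega
  obtain ⟨W, hW⟩ : ∃ W, W = b ^ 2 + (p ^ 2 + 2) * a ^ 2 := ⟨_, rfl⟩
  have hWsq : W ^ 2 = v ^ 2 + 4 * (p ^ 2 + 1) * a ^ 4 := by
    rw [hv, hW]
    ring
  have hlt : v < W := by
    refine lt_of_pow_lt_pow_left₀ 2 (Nat.zero_le _) ?_
    rw [hWsq]
    have : 0 < 4 * (p ^ 2 + 1) * a ^ 4 := by positivity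
    omega
  have hWodd : W % 2 = 1 := by
    rw [hW]
    rcases Nat.mod_two_eq_zero_or_one a with h1 | h1
    · have h2 : b % 2 = 1 := by omega
      simp [Nat.add_mod, Nat.mul_mod, Nat.pow_mod, h1, h2, hpodd]
    · have h2 : b % 2 = 0 := by omega
      simp [Nat.add_mod, Nat.mul_mod, Nat.pow_mod, h1, h2, hpodd]
  have hpv : v % 2 = 1 := by
    have h1 : (W ^ 2) % 2 = 1 := by simp [Nat.pow_mod, hWodd]
    have h2 : (4 * (p ^ 2 + 1) * a ^ 4) % 2 = 0 := by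
      rw [mul_assoc, Nat.mul_mod]
      simp
    have h3 : (v ^ 2) % 2 = 1 := by omega
    rcases Nat.mod_two_eq_zero_or_one v with h4 | h4
    · simp [Nat.pow_mod, h4] at h3
    · exact h4
  obtain ⟨X, hX⟩ : ∃ X, W = v + 2 * X := ⟨(W - v) / 2, by omega⟩
  obtain ⟨Y, hY⟩ : ∃ Y, Y = X + v := ⟨_, rfl⟩
  have hXY : X * Y = 2 * l * a ^ 4 := by
    have h1 : 4 * (X * Y) = 4 * (2 * l * a ^ 4) := by
      have h2 : 4 * (X * Y) + v ^ 2 = W ^ 2 := by
        rw [hX, hY]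
        ring
      rw [hWsq] at h2
      rw [h2l]
      nlinarith
    omega
  have hWXY : W = X + Y := by omega
  have hcop : X.Coprime Y := by
    rw [Nat.coprime_iff_gcd_eq_one]
    by_contra hne
    obtain ⟨q, hq, hqd⟩ := Nat.exists_prime_and_dvd hne
    have hqX : q ∣ X := hqd.trans (Nat.gcd_dvd_left X Y)
    have hqY : q ∣ Y := hqd.trans (Nat.gcd_dvd_right X Y)
    have hqa : q ∣ a := by
      by_contra hqb
      have h1 : q * q ∣ 2 * l * a ^ 4 := by rw [← hXY]; exact Nat.mul_dvd_mul hqX hqY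
      have h2 : (q * q).Coprime (a ^ 4) := by
        have h3 : q.Coprime a := (Nat.Prime.coprime_iff_not_dvd hq).2 hqb
        exact Nat.Coprime.pow_right 4 (Nat.Coprime.mul_left h3 h3)
      have h3 : q * q ∣ 2 * l := h2.dvd_of_dvd_mul_right h1
      have h4 : q ∣ 2 * l := (Dvd.intro _ rfl).trans h3
      rcases (Nat.Prime.dvd_mul hq).1 h4 with h5 | h5
      · have h6 := (Nat.prime_dvd_prime_iff_eq hq Nat.prime_two).1 h5
        rw [h6] at h3
        have h7 : 2 ∣ l := Nat.dvd_of_mul_dvd_mul_left (by norm_num) h3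
        omega
      · have h6 := (Nat.prime_dvd_prime_iff_eq hq hl).1 h5
        rw [h6, mul_comm 2 l] at h3
        have h7 : l ∣ 2 := Nat.dvd_of_mul_dvd_mul_left hl.pos h3
        have h8 := (Nat.prime_dvd_prime_iff_eq hl Nat.prime_two).1 h7
        omega
    have hqW : q ∣ W := by rw [hWXY]; exact Nat.dvd_add hqX hqY
    have h1 : q ∣ b ^ 2 := by
      rw [hW] at hqW
      refine (Nat.dvd_add_left ?_).1 hqW
      exact (hqa.trans (Dvd.intro_left _ (by ring_nf : a * a = a ^ 2))).mul_left _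
    have h3 := hq.dvd_of_dvd_pow h1
    have h4 := Nat.dvd_gcd hqa h3
    rw [hab.gcd_eq_one] at h4
    exact hq.one_lt.ne' (Nat.dvd_one.1 h4)
  obtain ⟨m, n, hamn, hmn, hcase⟩ := split4 hl (by omega) hXY hcop
  have key2 : ∀ (m n : ℕ), a = m * n → W = 2 * m ^ 4 + l * n ^ 4 → False := by
    intro m n ham hWm
    have h1 : 2 * (b ^ 2 + (p ^ 2 + 2) * (m * n) ^ 2) =
        4 * m ^ 4 + (p ^ 2 + 1) * n ^ 4 := by
      have h2 : b ^ 2 + (p ^ 2 + 2) * (m * n) ^ 2 = 2 * m ^ 4 + l * n ^ 4 := by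
        rw [← ham, ← hW, hWm]
      rw [h2, ← h2l]
      ring
    have h2 := congrArg (fun t : ℕ => (t : ZMod p)) h1
    push_cast at h2
    rw [ZMod.natCast_self] at h2
    apply not_sq_two p hp8
    have hb0 : (b : ZMod p) ≠ 0 := by
      rw [Ne, ZMod.natCast_eq_zero_iff]
      exact hpb
    refine ⟨(2 * (m : ZMod p) ^ 2 - (n : ZMod p) ^ 2) / b, ?_⟩
    field_simp
    linear_combination h2
  have key1 : ∀ (m n : ℕ), a = m * n → m.Coprime n → W = m ^ 4 + 2 * l * n ^ 4 →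
      ∃ x y u' v' : ℕ, 0 < x ∧ 0 < y ∧ (y ≤ a ∨ y ≤ b) ∧ x ^ 2 + p ^ 2 * y ^ 2 = u' ^ 2 ∧
      x ^ 2 + (p ^ 2 + 1) * y ^ 2 = v' ^ 2 := by
    intro m n ham hmn hWm
    have hm0 : 0 < m := by
      rcases Nat.eq_zero_or_pos m with h | h
      · rw [h, zero_mul] at ham
        omega
      · exact h
    have hn0 : 0 < n := by
      rcases Nat.eq_zero_or_pos n with h | h
      · rw [h, mul_zero] at ham
        omega
      · exact h
    have h1 : (b : ℤ) ^ 2 = ((m : ℤ) ^ 2 - (n : ℤ) ^ 2) *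
        ((m : ℤ) ^ 2 - ((p : ℤ) ^ 2 + 1) * (n : ℤ) ^ 2) := by
      have h2 : b ^ 2 + (p ^ 2 + 2) * (m * n) ^ 2 = m ^ 4 + (p ^ 2 + 1) * n ^ 4 := by
        rw [← ham, ← hW, hWm, ← h2l]
      have h3 := congrArg (fun t : ℕ => (t : ℤ)) h2
      push_cast at h3
      linear_combination h3
    obtain ⟨A, hA⟩ : ∃ A : ℤ, A = (m : ℤ) ^ 2 - (n : ℤ) ^ 2 := ⟨_, rfl⟩
    obtain ⟨B, hB⟩ : ∃ B : ℤ, B = (m : ℤ) ^ 2 - ((p : ℤ) ^ 2 + 1) * (n : ℤ) ^ 2 := ⟨_, rfl⟩
    rw [← hA, ← hB] at h1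
    have hpp : Prime (p : ℤ) := Nat.prime_iff_prime_int.1 hp
    have hcopAB : IsCoprime A B := by
      have hmn2 : IsCoprime ((m : ℤ) ^ 2) ((n : ℤ) ^ 2) :=
        (Nat.isCoprime_iff_coprime.2 hmn).pow
      obtain ⟨s, t, hst⟩ := hmn2
      have hpA : IsCoprime (p : ℤ) A := by
        rw [hpp.coprime_iff_not_dvd]
        intro h3
        have h4 : (p : ℤ) ∣ (b : ℤ) ^ 2 := by rw [h1]; exact h3.mul_right B
        exact hpb (by exact_mod_cast hpp.dvd_of_dvd_pow h4)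
      have hpA2 : IsCoprime ((p : ℤ) ^ 2) A := hpA.pow_left
      obtain ⟨s', t', hst'⟩ := hpA2
      have h3 : (p : ℤ) ^ 2 = s * (((p : ℤ) ^ 2 + 1) * A - B) + t * (A - B) := by
        have e1 : ((p : ℤ) ^ 2 + 1) * A - B = (p : ℤ) ^ 2 * (m : ℤ) ^ 2 := by
          rw [hA, hB]
          ring
        have e2 : A - B = (p : ℤ) ^ 2 * (n : ℤ) ^ 2 := by rw [hA, hB]; ring
        rw [e1, e2]
        linear_combination (-(p : ℤ) ^ 2) * hst
      refine ⟨s' * (s * ((p : ℤ) ^ 2 + 1) + t) + t', s' * (-s - t), ?_⟩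
      linear_combination hst' - s' * h3
    obtain ⟨r, hr⟩ := Int.sq_of_isCoprime hcopAB h1.symm
    obtain ⟨s, hs⟩ := Int.sq_of_isCoprime hcopAB.symm (by rw [mul_comm]; exact h1.symm)
    have hb2 : (0 : ℤ) < (b : ℤ) ^ 2 := by positivity
    have hr0 : r ≠ 0 := by
      rintro rfl
      rcases hr with hr | hr <;> rw [hr] at h1 <;> simp at h1 <;> omega
    have hs0 : s ≠ 0 := by
      rintro rfl
      rcases hs with hs | hs <;> rw [hs] at h1 <;> simp at h1 <;> omega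
    have hr2 : 0 < r ^ 2 := by positivity
    have hs2 : 0 < s ^ 2 := by positivity
    have hna : n ≤ a := by
      rw [ham]
      exact Nat.le_mul_of_pos_left n hm0
    have hrb : r.natAbs ≤ b := by
      have h3 : (b : ℤ) ^ 2 = r ^ 2 * s ^ 2 := by
        rcases hr with hr | hr <;> rcases hs with hs | hs
        · rw [h1, hr, hs]
        · exfalso
          rw [h1, hr, hs] at hb2
          nlinarith [mul_pos hr2 hs2]
        · exfalso
          rw [h1, hr, hs] at hb2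
          nlinarith [mul_pos hr2 hs2]
        · rw [h1, hr, hs]
          ring
      have h4 : r ^ 2 ≤ (b : ℤ) ^ 2 := by
        rw [h3]
        nlinarith
      have h5 := sq_le_sq.mp h4
      zify
      rwa [abs_of_nonneg (by positivity : (0 : ℤ) ≤ (b : ℤ))] at h5
    rcases hr with hr | hr <;> rcases hs with hs | hs
    · refine ⟨s.natAbs, n, r.natAbs, m, Int.natAbs_pos.2 hs0, hn0, Or.inl hna, ?_, ?_⟩
      · zify
        rw [sq_abs, sq_abs, ← hr, ← hs, hA, hB]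
        ring
      · zify
        rw [sq_abs, ← hs, hB]
        ring
    · exfalso
      rw [h1, hr, hs] at hb2
      nlinarith [mul_pos hr2 hs2]
    · exfalso
      rw [h1, hr, hs] at hb2
      nlinarith [mul_pos hr2 hs2]
    · refine ⟨p * m, r.natAbs, p * n, s.natAbs, Nat.mul_pos hp.pos hm0, Int.natAbs_pos.2 hr0,
        Or.inr hrb, ?_, ?_⟩
      · zify
        rw [sq_abs]
        have h3 : r ^ 2 = (n : ℤ) ^ 2 - (m : ℤ) ^ 2 := by linarith
        rw [h3]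
        ring
      · zify
        rw [sq_abs, sq_abs]
        have h3 : r ^ 2 = (n : ℤ) ^ 2 - (m : ℤ) ^ 2 := by linarith
        have h4 : s ^ 2 = ((p : ℤ) ^ 2 + 1) * (n : ℤ) ^ 2 - (m : ℤ) ^ 2 := by linarith
        rw [h3, h4]
        ring
  rcases hcase with ⟨h1, h2⟩ | ⟨h1, h2⟩ | ⟨h1, h2⟩ | ⟨h1, h2⟩
  · exact key1 m n hamn hmn (by rw [hWXY, h1, h2])
  · exact key1 m n hamn hmn (by rw [hWXY, h1, h2]; ring)
  · exact absurd (key2 m n hamn (by rw [hWXY, h1, h2])) id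
  · exact absurd (key2 m n hamn (by rw [hWXY, h1, h2]; ring)) id

end Pool.Agent.PRB
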