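import Pool.Agent.PRB.Split

set_option autoImplicit false

/-!
# Prime ratios, the second case
-/

namespace Pool.Agent.PRB

theorem l_mod (p l : ℕ) (hp8 : p % 8 = 3 ∨ p % 8 = 5) (h2l : 2 * l = p ^ 2 + 1) : l % 4 = 1 := by
  have h1 : p ^ 2 % 8 = 1 := by
    rcases hp8 with h | h <;> simp [Nat.pow_mod, h]
  omega

theorem not_sq_two (p : ℕ) [Fact p.Prime] (hp8 : p % 8 = 3 ∨ p % 8 = 5) :
    ¬ IsSquare (2 : ZMod p) := by
  rw [ZMod.exists_sq_eq_two_iff (by rintro rfl; omega)]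
  omega

/-- `2 m ^ 2 = n ^ 2` modulo `p` only if `p` divides `m` -/
theorem dvd_of_two (p : ℕ) [Fact p.Prime] (hp8 : p % 8 = 3 ∨ p % 8 = 5) (m n : ZMod p)
    (h : 2 * m ^ 2 = n ^ 2) : m = 0 := by
  by_contra hm
  apply not_sq_two p hp8
  refine ⟨n / m, ?_⟩
  field_simp
  exact h

theorem not_sq_l (p l : ℕ) [Fact p.Prime] [Fact l.Prime] (hp8 : p % 8 = 3 ∨ p % 8 = 5)
    (h2l : 2 * l = p ^ 2 + 1) : ¬ IsSquare (p : ZMod l) := by
  rw [ZMod.exists_sq_eq_prime_iff_of_mod_four_eq_one (l_mod p l hp8 h2l) (by rintro rfl; omega)]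
  rintro ⟨c, hc⟩
  apply not_sq_two p hp8
  have h1 : (2 : ZMod p) * (l : ZMod p) = 1 := by
    have h2 : ((2 * l : ℕ) : ZMod p) = ((p ^ 2 + 1 : ℕ) : ZMod p) := by rw [h2l]
    push_cast at h2
    rw [h2]
    simp
  have hc0 : c ≠ 0 := by
    rintro rfl
    rw [hc] at h1
    simp at h1
  refine ⟨c⁻¹, ?_⟩
  rw [hc] at h1
  field_simp
  linear_combination h1

theorem not_sq_pm (p l : ℕ) [Fact p.Prime] [Fact l.Prime] (hp8 : p % 8 = 3 ∨ p % 8 = 5)
    (h2l : 2 * l = p ^ 2 + 1) (m S : ZMod l) (h : m ^ 2 = p * S ^ 2 ∨ m ^ 2 = - (p * S ^ 2)) :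
    S = 0 := by
  by_contra hS
  apply not_sq_l p l hp8 h2l
  rcases h with h | h
  · refine ⟨m / S, ?_⟩
    field_simp
    exact h.symm
  · have h1 : IsSquare (-1 : ZMod l) := by
      rw [ZMod.exists_sq_eq_neg_one_iff]
      have := l_mod p l hp8 h2l
      omega
    obtain ⟨c, hc⟩ := h1
    refine ⟨c * (m / S), ?_⟩
    field_simp
    linear_combination h + m ^ 2 * hc

theorem prime_int_sq (p : ℕ) (hp : p.Prime) (x : ℤ) (h : (p : ℤ) ∣ x ^ 2) : (p : ℤ) ∣ x :=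
  Int.Prime.dvd_pow' hp h

/-- the second case: no solution at all -/
theorem case2 (p l a b v : ℕ) (hp : p.Prime) (hp8 : p % 8 = 3 ∨ p % 8 = 5) (hl : l.Prime)
    (h2l : 2 * l = p ^ 2 + 1) (ha : 0 < a) (hb : 0 < b) (hab : a.Coprime b)
    (hpar : (a + b) % 2 = 1) (hpa : ¬ p ∣ a) (hpb : ¬ p ∣ b)
    (hv : v ^ 2 = p ^ 2 * (a ^ 2 + b ^ 2) ^ 2 + 4 * a ^ 2 * b ^ 2) : False := by
  have : Fact p.Prime := ⟨hp⟩
  have : Fact l.Prime := ⟨hl⟩
  have hl4 := l_mod p l hp8 h2l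
  have hpodd : p % 2 = 1 := by omega
  obtain ⟨W, hW⟩ : ∃ W, W = p ^ 2 * a ^ 2 + (p ^ 2 + 2) * b ^ 2 := ⟨_, rfl⟩
  have hWsq : W ^ 2 = (p * v) ^ 2 + 4 * (p ^ 2 + 1) * b ^ 4 := by
    rw [mul_pow, hv, hW]
    ring
  have hlt : p * v < W := by
    refine lt_of_pow_lt_pow_left₀ 2 (Nat.zero_le _) ?_
    rw [hWsq]
    have : 0 < 4 * (p ^ 2 + 1) * b ^ 4 := by positivity
    omega
  have hWodd : W % 2 = 1 := by
    rw [hW]
    rcases Nat.mod_two_eq_zero_or_one a with h1 | h1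
    · have h2 : b % 2 = 1 := by omega
      simp [Nat.add_mod, Nat.mul_mod, Nat.pow_mod, h1, h2, hpodd]
    · have h2 : b % 2 = 0 := by omega
      simp [Nat.add_mod, Nat.mul_mod, Nat.pow_mod, h1, h2, hpodd]
  have hpv : (p * v) % 2 = 1 := by
    have h1 : (W ^ 2) % 2 = 1 := by simp [Nat.pow_mod, hWodd]
    have h2 : (4 * (p ^ 2 + 1) * b ^ 4) % 2 = 0 := by
      rw [mul_assoc, Nat.mul_mod]
      simp
    have h3 : ((p * v) ^ 2) % 2 = 1 := by omega
    rcases Nat.mod_two_eq_zero_or_one (p * v) with h4 | h4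
    · simp [Nat.pow_mod, h4] at h3
    · exact h4
  obtain ⟨X, hX⟩ : ∃ X, W = p * v + 2 * X := ⟨(W - p * v) / 2, by omega⟩
  obtain ⟨Y, hY⟩ : ∃ Y, Y = X + p * v := ⟨_, rfl⟩
  have hXY : X * Y = 2 * l * b ^ 4 := by
    have h1 : 4 * (X * Y) = 4 * (2 * l * b ^ 4) := by
      have h2 : 4 * (X * Y) + (p * v) ^ 2 = W ^ 2 := by
        rw [hX, hY]
        ring
      rw [hWsq] at h2
      rw [h2l]
      nlinarith
    omega
  have hWXY : W = X + Y := by omega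
  have hcop : X.Coprime Y := by
    rw [Nat.coprime_iff_gcd_eq_one]
    by_contra hne
    obtain ⟨q, hq, hqd⟩ := Nat.exists_prime_and_dvd hne
    have hqX : q ∣ X := hqd.trans (Nat.gcd_dvd_left X Y)
    have hqY : q ∣ Y := hqd.trans (Nat.gcd_dvd_right X Y)
    have hqb : q ∣ b := by
      by_contra hqb
      have h1 : q * q ∣ 2 * l * b ^ 4 := by rw [← hXY]; exact Nat.mul_dvd_mul hqX hqY
      have h2 : (q * q).Coprime (b ^ 4) := by
        have h3 : q.Coprime b := (Nat.Prime.coprime_iff_not_dvd hq).2 hqb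
        exact Nat.Coprime.pow_right 4 (Nat.Coprime.mul_left h3 h3)
      have h3 : q * q ∣ 2 * l := h2.dvd_of_dvd_mul_right h1
      have h4 : q ∣ 2 * l := (Dvd.intro _ rfl).trans h3
      rcases (Nat.Prime.dvd_mul hq).1 h4 with h5 | h5
      · have h6 := (Nat.prime_dvd_prime_iff_eq hq Nat.prime_two).1 h5
        rw [h6] at h3
        have h7 : 2 ∣ l := Nat.dvd_of_mul_dvd_mul_left (by norm_num) h3
        omega
      · have h6 := (Nat.prime_dvd_prime_iff_eq hq hl).1 h5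
        rw [h6, mul_comm 2 l] at h3
        have h7 : l ∣ 2 := Nat.dvd_of_mul_dvd_mul_left hl.pos h3
        have h8 := (Nat.prime_dvd_prime_iff_eq hl Nat.prime_two).1 h7
        omega
    have hqW : q ∣ W := by rw [hWXY]; exact Nat.dvd_add hqX hqY
    have h1 : q ∣ p ^ 2 * a ^ 2 := by
      rw [hW] at hqW
      refine (Nat.dvd_add_left ?_).1 hqW
      exact (hqb.trans (Dvd.intro_left _ (by ring_nf : b * b = b ^ 2))).mul_left _
    rcases (Nat.Prime.dvd_mul hq).1 h1 with h2 | h2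
    · have h3 := (Nat.prime_dvd_prime_iff_eq hq hp).1 (hq.dvd_of_dvd_pow h2)
      rw [h3] at hqb
      exact hpb hqb
    · have h3 := hq.dvd_of_dvd_pow h2
      have h4 := Nat.dvd_gcd h3 hqb
      rw [hab.gcd_eq_one] at h4
      exact hq.one_lt.ne' (Nat.dvd_one.1 h4)
  obtain ⟨m, n, hbmn, hmn, hcase⟩ := split4 hl (by omega) hXY hcop
  -- the equation modulo `p` and over the integers
  have key2 : ∀ (m n : ℕ), b = m * n → W = 2 * m ^ 4 + l * n ^ 4 → False := by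
    intro m n hbm hWm
    have h1 : 2 * (p ^ 2 * a ^ 2 + (p ^ 2 + 2) * (m * n) ^ 2) =
        4 * m ^ 4 + (p ^ 2 + 1) * n ^ 4 := by
      have h2 : p ^ 2 * a ^ 2 + (p ^ 2 + 2) * (m * n) ^ 2 = 2 * m ^ 4 + l * n ^ 4 := by
        rw [← hbm, ← hW, hWm]
      rw [h2, ← h2l]
      ring
    have h2 := congrArg (fun t : ℕ => (t : ZMod p)) h1
    push_cast at h2
    rw [ZMod.natCast_self] at h2
    have h3 : (2 * (m : ZMod p) ^ 2 - (n : ZMod p) ^ 2) ^ 2 = 0 := by linear_combination -h2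
    have h4 : 2 * (m : ZMod p) ^ 2 = (n : ZMod p) ^ 2 := sub_eq_zero.1 (pow_eq_zero_iff (two_ne_zero)|>.1 h3)
    have h5 := dvd_of_two p hp8 _ _ h4
    rw [ZMod.natCast_eq_zero_iff] at h5
    exact hpb (by rw [hbm]; exact h5.mul_right n)
  have key1 : ∀ (m n : ℕ), b = m * n → m.Coprime n → W = m ^ 4 + 2 * l * n ^ 4 → False := by
    intro m n hbm hmn hWm
    have h1 : ((p : ℤ) ^ 2 * (a : ℤ) ^ 2) = ((m : ℤ) ^ 2 - (n : ℤ) ^ 2) *
        ((m : ℤ) ^ 2 - ((p : ℤ) ^ 2 + 1) * (n : ℤ) ^ 2) := by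
      have h2 : p ^ 2 * a ^ 2 + (p ^ 2 + 2) * (m * n) ^ 2 = m ^ 4 + (p ^ 2 + 1) * n ^ 4 := by
        rw [← hbm, ← hW, hWm, ← h2l]
      have h3 := congrArg (fun t : ℕ => (t : ℤ)) h2
      push_cast at h3
      linear_combination h3
    have hpp : Prime (p : ℤ) := Nat.prime_iff_prime_int.1 hp
    have h2 : (p : ℤ) ∣ (m : ℤ) ^ 2 - (n : ℤ) ^ 2 := by
      have h3 : (p : ℤ) ∣ ((m : ℤ) ^ 2 - (n : ℤ) ^ 2) ^ 2 := by
        refine ⟨p * a ^ 2 + p * n ^ 2 * (m ^ 2 - n ^ 2), ?_⟩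
        linear_combination -h1
      exact hpp.dvd_of_dvd_pow h3
    obtain ⟨A, hA⟩ := h2
    obtain ⟨B, hB⟩ : ∃ B, B = A - p * (n : ℤ) ^ 2 := ⟨_, rfl⟩
    have hAB : A * B = (a : ℤ) ^ 2 := by
      have h3 : (p : ℤ) ^ 2 * (A * B) = (p : ℤ) ^ 2 * (a : ℤ) ^ 2 := by
        rw [h1, hB]
        linear_combination (-(m : ℤ) ^ 2 + (p ^ 2 + 1) * n ^ 2 - p * A) * hA
      exact mul_left_cancel₀ (pow_ne_zero 2 (by exact_mod_cast hp.ne_zero)) h3
    have hmB : (m : ℤ) ^ 2 = ((p : ℤ) ^ 2 + 1) * (n : ℤ) ^ 2 + p * B := by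
      rw [hB]
      linear_combination hA
    have hcopAB : IsCoprime B A := by
      have hmn2 : IsCoprime ((m : ℤ) ^ 2) ((n : ℤ) ^ 2) :=
        (Nat.isCoprime_iff_coprime.2 hmn).pow
      obtain ⟨s, t, hst⟩ := hmn2
      have hpA : IsCoprime (p : ℤ) A := by
        rw [hpp.coprime_iff_not_dvd]
        intro h3
        have h4 : (p : ℤ) ∣ (a : ℤ) ^ 2 := by rw [← hAB]; exact h3.mul_right B
        exact hpa (by exact_mod_cast hpp.dvd_of_dvd_pow h4)
      obtain ⟨s', t', hst'⟩ := hpA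
      -- `p = s ((p^2+1) A - B) + t (A - B)`
      have h3 : (p : ℤ) = s * (((p : ℤ) ^ 2 + 1) * A - B) + t * (A - B) := by
        have e1 : ((p : ℤ) ^ 2 + 1) * A - B = p * (m : ℤ) ^ 2 := by
          rw [hB]
          linear_combination (-(p : ℤ)) * hA
        have e2 : A - B = p * (n : ℤ) ^ 2 := by rw [hB]; ring
        rw [e1, e2]
        linear_combination (-(p : ℤ)) * hst
      refine ⟨s' * (-s - t), s' * (s * ((p : ℤ) ^ 2 + 1) + t) + t', ?_⟩
      linear_combination hst' - s' * h3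
    obtain ⟨S, hS⟩ := Int.sq_of_isCoprime hcopAB (by rw [mul_comm]; exact hAB)
    have hml : ((m : ℤ) : ZMod l) ^ 2 = p * (S : ZMod l) ^ 2 ∨
        ((m : ℤ) : ZMod l) ^ 2 = - (p * (S : ZMod l) ^ 2) := by
      have h3 := congrArg (fun t : ℤ => (t : ZMod l)) hmB
      push_cast at h3
      have h4 : ((p : ZMod l) ^ 2 + 1) = 0 := by
        have h5 : ((2 * l : ℕ) : ZMod l) = ((p ^ 2 + 1 : ℕ) : ZMod l) := by rw [h2l]
        push_cast at h5
        rw [← h5, ZMod.natCast_self, mul_zero]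
      rw [h4, zero_mul, zero_add] at h3
      rcases hS with hS | hS
      · left
        rw [hS] at h3
        push_cast at h3 ⊢
        exact h3
      · right
        rw [hS] at h3
        push_cast at h3 ⊢
        rw [h3]
        ring
    have hS0 := not_sq_pm p l hp8 h2l _ _ hml
    have hlS : (l : ℤ) ∣ S := (ZMod.intCast_zmod_eq_zero_iff_dvd S l).1 hS0
    have hlp : Prime (l : ℤ) := Nat.prime_iff_prime_int.1 hl
    have hlB : (l : ℤ) ^ 2 ∣ B := by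
      rcases hS with hS | hS
      · rw [hS]
        exact pow_dvd_pow_of_dvd hlS 2
      · rw [hS]
        exact (pow_dvd_pow_of_dvd hlS 2).neg_right
    have h2l' : ((p : ℤ) ^ 2 + 1) = 2 * l := by exact_mod_cast h2l.symm
    have hlm : (l : ℤ) ∣ m := by
      refine hlp.dvd_of_dvd_pow (n := 2) ?_
      rw [hmB, h2l']
      refine dvd_add (Dvd.intro_left (2 * (n : ℤ) ^ 2) (by ring)) ?_
      exact ((Dvd.intro_left (l : ℤ) (by ring : (l : ℤ) * l = l ^ 2)).trans hlB).mul_left _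
    have hln : (l : ℤ) ∣ n := by
      have h3 : (l : ℤ) ^ 2 ∣ 2 * l * (n : ℤ) ^ 2 := by
        have h4 : 2 * (l : ℤ) * (n : ℤ) ^ 2 = (m : ℤ) ^ 2 - p * B := by
          rw [hmB, h2l']
          ring
        rw [h4]
        exact dvd_sub (pow_dvd_pow_of_dvd hlm 2) (hlB.mul_left _)
      have h5 : (l : ℤ) ∣ 2 * (n : ℤ) ^ 2 := by
        have h6 : (l : ℤ) * l ∣ l * (2 * (n : ℤ) ^ 2) := by
          convert h3 using 1 <;> ring
        exact (mul_dvd_mul_iff_left (by exact_mod_cast hl.ne_zero)).1 h6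
      rcases hlp.dvd_or_dvd h5 with h6 | h6
      · exfalso
        have h7 : l ∣ 2 := by exact_mod_cast h6
        have h8 := (Nat.prime_dvd_prime_iff_eq hl Nat.prime_two).1 h7
        omega
      · exact hlp.dvd_of_dvd_pow h6
    have h3 : l ∣ m := by exact_mod_cast hlm
    have h4 : l ∣ n := by exact_mod_cast hln
    have h5 := Nat.dvd_gcd h3 h4
    rw [hmn.gcd_eq_one] at h5
    exact hl.one_lt.ne' (Nat.dvd_one.1 h5)
  rcases hcase with ⟨h1, h2⟩ | ⟨h1, h2⟩ | ⟨h1, h2⟩ | ⟨h1, h2⟩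
  · exact key1 m n hbmn hmn (by rw [hWXY, h1, h2])
  · exact key1 m n hbmn hmn (by rw [hWXY, h1, h2]; ring)
  · exact key2 m n hbmn (by rw [hWXY, h1, h2])
  · exact key2 m n hbmn (by rw [hWXY, h1, h2]; ring)

end Pool.Agent.PRB
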