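import Pool.Agent.PRB.Case1h64

set_option autoImplicit false

/-!
# Prime ratios: the descent
-/

namespace Pool.Agent.PRB

theorem sq_mod_four (t : ℕ) : t ^ 2 % 4 = 0 ∧ t % 2 = 0 ∨ t ^ 2 % 4 = 1 ∧ t % 2 = 1 := by
  rcases Nat.even_or_odd t with ⟨c, hc⟩ | ⟨c, hc⟩
  · left
    refine ⟨?_, by omega⟩
    rw [hc, show (c + c) ^ 2 = 4 * c ^ 2 by ring]
    omega
  · right
    refine ⟨?_, by omega⟩
    rw [hc, show (2 * c + 1) ^ 2 = 4 * (c ^ 2 + c) + 1 by ring]
    omega

/-- the coprime case: a smaller solution -/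
theorem step (p l x y u v : ℕ) (hp : p.Prime) (hp8 : p % 8 = 3 ∨ p % 8 = 5) (hl : l.Prime)
    (h2l : 2 * l = p ^ 2 + 1) (hx : 0 < x) (hy : 0 < y) (hxy : x.Coprime y)
    (h1 : x ^ 2 + p ^ 2 * y ^ 2 = u ^ 2) (h2 : x ^ 2 + (p ^ 2 + 1) * y ^ 2 = v ^ 2) :
    ∃ x' y' u' v' : ℕ, 0 < x' ∧ 0 < y' ∧ y' < y ∧ x' ^ 2 + p ^ 2 * y' ^ 2 = u' ^ 2 ∧
      x' ^ 2 + (p ^ 2 + 1) * y' ^ 2 = v' ^ 2 := by
  have h3 : u ^ 2 + y ^ 2 = v ^ 2 := by rw [← h1, ← h2]; ring
  have hp4 : p ^ 2 % 4 = 1 := by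
    rcases sq_mod_four p with ⟨_, h⟩ | ⟨h, _⟩
    · omega
    · exact h
  have hpy : p ^ 2 * y ^ 2 % 4 = y ^ 2 % 4 := by
    rw [Nat.mul_mod, hp4, one_mul, Nat.mod_mod]
  -- parity
  have hye : y % 2 = 0 ∧ x % 2 = 1 ∧ u % 2 = 1 := by
    have a1 := sq_mod_four x
    have a2 := sq_mod_four y
    have a3 := sq_mod_four u
    have a4 := sq_mod_four v
    have a5 : ¬ (x % 2 = 0 ∧ y % 2 = 0) := by
      rintro ⟨b1, b2⟩
      have := Nat.dvd_gcd (Nat.dvd_of_mod_eq_zero b1) (Nat.dvd_of_mod_eq_zero b2)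
      rw [hxy.gcd_eq_one] at this
      omega
    omega
  obtain ⟨hy2, hx2, hu2⟩ := hye
  obtain ⟨z, hz⟩ : ∃ z, y = 2 * z := ⟨y / 2, by omega⟩
  have hz0 : 0 < z := by omega
  by_cases hg : p ∣ u
  · -- case 2
    exfalso
    have hpx : p ∣ x := by
      have h4 : p ∣ x ^ 2 := by
        have h5 : p ∣ x ^ 2 + p ^ 2 * y ^ 2 := by
          rw [h1]
          exact hg.trans (Dvd.intro_left u (by ring))
        refine (Nat.dvd_add_left ?_).1 h5
        exact Dvd.intro (p * y ^ 2) (by ring)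
      exact hp.dvd_of_dvd_pow h4
    obtain ⟨x', hx'⟩ := hpx
    obtain ⟨u', hu'⟩ := hg
    have hpy' : ¬ p ∣ y := by
      intro h4
      have := Nat.dvd_gcd (Dvd.intro x' hx'.symm) h4
      rw [hxy.gcd_eq_one] at this
      exact hp.one_lt.ne' (Nat.dvd_one.1 this)
    have h4 : x' ^ 2 + (2 * z) ^ 2 = u' ^ 2 := by
      have h5 : p ^ 2 * (x' ^ 2 + (2 * z) ^ 2) = p ^ 2 * u' ^ 2 := by
        calc p ^ 2 * (x' ^ 2 + (2 * z) ^ 2) = (p * x') ^ 2 + p ^ 2 * (2 * z) ^ 2 := by ring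
          _ = x ^ 2 + p ^ 2 * y ^ 2 := by rw [← hx', ← hz]
          _ = u ^ 2 := h1
          _ = p ^ 2 * u' ^ 2 := by rw [hu']; ring
      exact Nat.eq_of_mul_eq_mul_left (pow_pos hp.pos 2) h5
    have hx'2 : x' % 2 = 1 := by
      rcases Nat.mod_two_eq_zero_or_one x' with h | h
      · rw [hx', Nat.mul_mod, h, mul_zero] at hx2
        omega
      · exact h
    have hu'2 : u' % 2 = 1 := by
      rcases Nat.mod_two_eq_zero_or_one u' with h | h
      · rw [hu', Nat.mul_mod, h, mul_zero] at hu2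
        omega
      · exact h
    have hc : x'.Coprime u' := by
      rw [Nat.coprime_iff_gcd_eq_one]
      by_contra hne
      obtain ⟨q, hq, hqd⟩ := Nat.exists_prime_and_dvd hne
      have q1 : q ∣ x' := hqd.trans (Nat.gcd_dvd_left _ _)
      have q2 : q ∣ u' := hqd.trans (Nat.gcd_dvd_right _ _)
      have q3 : q ∣ (2 * z) ^ 2 := by
        have q4 : q ∣ x' ^ 2 + (2 * z) ^ 2 := by rw [h4]; exact q2.trans (Dvd.intro_left u' (by ring))
        exact (Nat.dvd_add_right (q1.trans (Dvd.intro_left x' (by ring)))).1 q4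
      have q5 : q ∣ y := by rw [hz]; exact hq.dvd_of_dvd_pow q3
      have q6 : q ∣ x := by rw [hx']; exact q1.mul_left p
      have := Nat.dvd_gcd q6 q5
      rw [hxy.gcd_eq_one] at this
      exact hq.one_lt.ne' (Nat.dvd_one.1 this)
    obtain ⟨r, s, hrs, hcop, hur, hxr⟩ := param hx'2 hu'2 hc h4
    have hr0 : 0 < r := by
      rcases Nat.eq_zero_or_pos r with h | h
      · rw [h, zero_mul] at hrs
        omega
      · exact h
    have hs0 : 0 < s := by
      rcases Nat.eq_zero_or_pos s with h | h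
      · rw [h, mul_zero] at hrs
        omega
      · exact h
    refine case2 p l r s v hp hp8 hl h2l hr0 hs0 hcop ?_ ?_ ?_ ?_
    · have b1 := sq_mod_four r
      have b2 := sq_mod_four s
      omega
    · intro h
      exact hpy' (by rw [hz, hrs]; exact (h.mul_right s).mul_left 2)
    · intro h
      exact hpy' (by rw [hz, hrs]; exact (h.mul_left r).mul_left 2)
    · rw [← h3, hu', hur, hz, hrs]
      ring
  · -- case 1
    have hpx : ¬ p ∣ x := by
      intro h4
      apply hg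
      have h5 : p ∣ u ^ 2 := by
        rw [← h1]
        exact dvd_add (h4.trans (Dvd.intro_left x (by ring))) (Dvd.intro (p * y ^ 2) (by ring))
      exact hp.dvd_of_dvd_pow h5
    have h4 : x ^ 2 + (2 * (p * z)) ^ 2 = u ^ 2 := by
      rw [← h1, hz]
      ring
    have hc : x.Coprime u := by
      rw [Nat.coprime_iff_gcd_eq_one]
      by_contra hne
      obtain ⟨q, hq, hqd⟩ := Nat.exists_prime_and_dvd hne
      have q1 : q ∣ x := hqd.trans (Nat.gcd_dvd_left _ _)
      have q2 : q ∣ u := hqd.trans (Nat.gcd_dvd_right _ _)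
      have q3 : q ∣ p ^ 2 * y ^ 2 := by
        have q4 : q ∣ x ^ 2 + p ^ 2 * y ^ 2 := by rw [h1]; exact q2.trans (Dvd.intro_left u (by ring))
        exact (Nat.dvd_add_right (q1.trans (Dvd.intro_left x (by ring)))).1 q4
      rcases (Nat.Prime.dvd_mul hq).1 q3 with q4 | q4
      · have q5 := (Nat.prime_dvd_prime_iff_eq hq hp).1 (hq.dvd_of_dvd_pow q4)
        rw [q5] at q1
        exact hpx q1
      · have := Nat.dvd_gcd q1 (hq.dvd_of_dvd_pow q4)
        rw [hxy.gcd_eq_one] at this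
        exact hq.one_lt.ne' (Nat.dvd_one.1 this)
    obtain ⟨r, s, hrs, hcop, hur, hxr⟩ := param hx2 hu2 hc h4
    have hpz : 0 < p * z := Nat.mul_pos hp.pos hz0
    have hr0 : 0 < r := by
      rcases Nat.eq_zero_or_pos r with h | h
      · rw [h, zero_mul] at hrs
        omega
      · exact h
    have hs0 : 0 < s := by
      rcases Nat.eq_zero_or_pos s with h | h
      · rw [h, mul_zero] at hrs
        omega
      · exact h
    have hpar : (r + s) % 2 = 1 := by
      have b1 := sq_mod_four r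
      have b2 := sq_mod_four s
      omega
    have fin : ∀ a b : ℕ, 0 < a → 0 < b → (p * a).Coprime b → (p * a + b) % 2 = 1 →
        z = a * b → u = (p * a) ^ 2 + b ^ 2 →
        ∃ x' y' u' v' : ℕ, 0 < x' ∧ 0 < y' ∧ y' < y ∧ x' ^ 2 + p ^ 2 * y' ^ 2 = u' ^ 2 ∧
          x' ^ 2 + (p ^ 2 + 1) * y' ^ 2 = v' ^ 2 := by
      intro a b ha hb hab hpar hzab hu
      have hpodd : p % 2 = 1 := by omega
      obtain ⟨x', y', u', v', c1, c2, c3, c4, c5⟩ := case1 p l a b v hp hp8 hl h2l ha hb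
        (Nat.Coprime.coprime_mul_left hab) (by
          have : p * a % 2 = a % 2 := by rw [Nat.mul_mod, hpodd, one_mul, Nat.mod_mod]
          omega) (by
          intro h
          have := Nat.dvd_gcd (Dvd.intro a rfl : p ∣ p * a) h
          rw [hab.gcd_eq_one] at this
          exact hp.one_lt.ne' (Nat.dvd_one.1 this)) (by rw [← h3, hu, hz, hzab]; ring)
      refine ⟨x', y', u', v', c1, c2, ?_, c4, c5⟩
      have d1 : a ≤ a * b := Nat.le_mul_of_pos_right a hb
      have d2 : b ≤ a * b := Nat.le_mul_of_pos_left b ha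
      rw [hz, hzab]
      rcases c3 with c3 | c3
      · have : 0 < a * b := Nat.mul_pos ha hb
        omega
      · have : 0 < a * b := Nat.mul_pos ha hb
        omega
    have hprs : p ∣ r * s := Dvd.intro z hrs
    rcases (Nat.Prime.dvd_mul hp).1 hprs with ⟨a, ha⟩ | ⟨a, ha⟩
    · refine fin a s ?_ hs0 ?_ ?_ ?_ ?_
      · rcases Nat.eq_zero_or_pos a with h | h
        · rw [ha, h, mul_zero] at hr0
          omega
        · exact h
      · rw [← ha]
        exact hcop
      · rw [← ha]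
        exact hpar
      · have e : p * z = p * (a * s) := by rw [hrs, ha]; ring
        exact Nat.eq_of_mul_eq_mul_left hp.pos e
      · rw [← ha]
        exact hur
    · refine fin a r ?_ hr0 ?_ ?_ ?_ ?_
      · rcases Nat.eq_zero_or_pos a with h | h
        · rw [ha, h, mul_zero] at hs0
          omega
        · exact h
      · rw [← ha]
        exact hcop.symm
      · rw [← ha]
        omega
      · have e : p * z = p * (a * r) := by rw [hrs, ha]; ring
        exact Nat.eq_of_mul_eq_mul_left hp.pos e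
      · rw [← ha, hur]
        ring

/-- **no solution** -/
theorem no_sol (p l : ℕ) (hp : p.Prime) (hp8 : p % 8 = 3 ∨ p % 8 = 5) (hl : l.Prime)
    (h2l : 2 * l = p ^ 2 + 1) : ∀ (y x u v : ℕ), 0 < x → 0 < y →
    x ^ 2 + p ^ 2 * y ^ 2 = u ^ 2 → x ^ 2 + (p ^ 2 + 1) * y ^ 2 = v ^ 2 → False := by
  intro y
  induction y using Nat.strong_induction_on with
  | _ y ih =>
    intro x u v hx hy h1 h2
    obtain ⟨g, hg⟩ : ∃ g, g = Nat.gcd x y := ⟨_, rfl⟩
    have hg0 : 0 < g := by rw [hg]; exact Nat.gcd_pos_of_pos_left y hx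
    obtain ⟨x', hx'⟩ : g ∣ x := by rw [hg]; exact Nat.gcd_dvd_left x y
    obtain ⟨y', hy'⟩ : g ∣ y := by rw [hg]; exact Nat.gcd_dvd_right x y
    have hc : x'.Coprime y' := by
      have h3 : g * Nat.gcd x' y' = g * 1 := by
        rw [← Nat.gcd_mul_left, ← hx', ← hy', ← hg, mul_one]
      exact Nat.eq_of_mul_eq_mul_left hg0 h3
    have hx0 : 0 < x' := by
      rcases Nat.eq_zero_or_pos x' with h | h
      · rw [hx', h, mul_zero] at hx
        omega
      · exact h
    have hy0 : 0 < y' := by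
      rcases Nat.eq_zero_or_pos y' with h | h
      · rw [hy', h, mul_zero] at hy
        omega
      · exact h
    have hgu : g ∣ u := by
      have h3 : g ^ 2 ∣ u ^ 2 := by
        rw [← h1, hx', hy']
        exact Dvd.intro (x' ^ 2 + p ^ 2 * y' ^ 2) (by ring)
      exact (Nat.pow_dvd_pow_iff two_ne_zero).1 h3
    have hgv : g ∣ v := by
      have h3 : g ^ 2 ∣ v ^ 2 := by
        rw [← h2, hx', hy']
        exact Dvd.intro (x' ^ 2 + (p ^ 2 + 1) * y' ^ 2) (by ring)
      exact (Nat.pow_dvd_pow_iff two_ne_zero).1 h3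
    obtain ⟨u', hu'⟩ := hgu
    obtain ⟨v', hv'⟩ := hgv
    have e1 : x' ^ 2 + p ^ 2 * y' ^ 2 = u' ^ 2 := by
      have h3 : g ^ 2 * (x' ^ 2 + p ^ 2 * y' ^ 2) = g ^ 2 * u' ^ 2 := by
        rw [hx', hy', hu'] at h1
        linear_combination h1
      exact Nat.eq_of_mul_eq_mul_left (by positivity) h3
    have e2 : x' ^ 2 + (p ^ 2 + 1) * y' ^ 2 = v' ^ 2 := by
      have h3 : g ^ 2 * (x' ^ 2 + (p ^ 2 + 1) * y' ^ 2) = g ^ 2 * v' ^ 2 := by
        rw [hx', hy', hv'] at h2
        linear_combination h2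
      exact Nat.eq_of_mul_eq_mul_left (by positivity) h3
    obtain ⟨x'', y'', u'', v'', c1, c2, c3, c4, c5⟩ := step p l x' y' u' v' hp hp8 hl h2l hx0 hy0 hc e1 e2
    refine ih y'' (lt_of_lt_of_le c3 ?_) x'' u'' v'' c1 c2 c4 c5
    rw [hy']
    exact Nat.le_mul_of_pos_left y' hg0

end Pool.Agent.PRB
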