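import Mathlib

set_option autoImplicit false

/-!
# Coprime factors of `2 l a ^ 4`
-/

namespace Pool.Agent.PRB

theorem split_pow {X Y a : ℕ} (h : X * Y = a ^ 4) (hc : Nat.Coprime X Y) :
    ∃ m n : ℕ, a = m * n ∧ Nat.Coprime m n ∧ X = m ^ 4 ∧ Y = n ^ 4 := by
  obtain ⟨m, hm⟩ := exists_eq_pow_of_mul_eq_pow (a := X) (b := Y) (c := a) (k := 4)
    (by rw [Nat.isUnit_iff]; exact hc) h
  obtain ⟨n, hn⟩ := exists_eq_pow_of_mul_eq_pow (a := Y) (b := X) (c := a) (k := 4)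
    (by rw [Nat.isUnit_iff]; exact hc.symm) (by rw [mul_comm]; exact h)
  refine ⟨m, n, ?_, ?_, hm, hn⟩
  · apply Nat.pow_left_injective (n := 4) (by norm_num)
    show a ^ 4 = (m * n) ^ 4
    rw [mul_pow, ← hm, ← hn, h]
  · rw [hm, hn] at hc
    exact (Nat.coprime_pow_left_iff (by norm_num) _ _).1
      ((Nat.coprime_pow_right_iff (by norm_num) _ _).1 hc)

/-- If `X Y = 2 l a ^ 4` with `X`, `Y` coprime and `l` an odd prime, then `X`, `Y` are, up to the order,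
`m ^ 4`, `2 l n ^ 4` or `2 m ^ 4`, `l n ^ 4` with `a = m n` and `m`, `n` coprime. -/
theorem split4 {l X Y a : ℕ} (hl : l.Prime) (hl2 : l ≠ 2) (h : X * Y = 2 * l * a ^ 4)
    (hc : Nat.Coprime X Y) :
    ∃ m n : ℕ, a = m * n ∧ Nat.Coprime m n ∧
      ((X = m ^ 4 ∧ Y = 2 * l * n ^ 4) ∨ (Y = m ^ 4 ∧ X = 2 * l * n ^ 4) ∨
        (X = 2 * m ^ 4 ∧ Y = l * n ^ 4) ∨ (Y = 2 * m ^ 4 ∧ X = l * n ^ 4)) := by
  have h2l : Nat.Coprime 2 l := (Nat.coprime_primes Nat.prime_two hl).2 (Ne.symm hl2)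
  have d2 : 2 ∣ X * Y := ⟨l * a ^ 4, by rw [h]; ring⟩
  have dl : l ∣ X * Y := ⟨2 * a ^ 4, by rw [h]; ring⟩
  have hpos : 0 < 2 * l := by have := hl.pos; omega
  rcases (Nat.Prime.dvd_mul Nat.prime_two).1 d2 with h2 | h2 <;>
    rcases (Nat.Prime.dvd_mul hl).1 dl with h3 | h3
  · obtain ⟨Z, rfl⟩ := Nat.Coprime.mul_dvd_of_dvd_of_dvd h2l h2 h3
    have e : Z * Y = a ^ 4 := by
      apply Nat.eq_of_mul_eq_mul_left hpos
      rw [← h]; ring
    obtain ⟨n, m, g1, g2, g3, g4⟩ := split_pow e (Nat.Coprime.coprime_mul_left hc)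
    exact ⟨m, n, by rw [g1, mul_comm], g2.symm, Or.inr (Or.inl ⟨g4, by rw [g3]⟩)⟩
  · obtain ⟨Z, rfl⟩ := h2
    obtain ⟨T, rfl⟩ := h3
    have e : Z * T = a ^ 4 := by
      apply Nat.eq_of_mul_eq_mul_left hpos
      rw [← h]; ring
    obtain ⟨m, n, g1, g2, g3, g4⟩ := split_pow e
      (Nat.Coprime.coprime_mul_left_right (Nat.Coprime.coprime_mul_left hc))
    exact ⟨m, n, g1, g2, Or.inr (Or.inr (Or.inl ⟨by rw [g3], by rw [g4]⟩))⟩
  · obtain ⟨Z, rfl⟩ := h2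
    obtain ⟨T, rfl⟩ := h3
    have e : Z * T = a ^ 4 := by
      apply Nat.eq_of_mul_eq_mul_left hpos
      rw [← h]; ring
    obtain ⟨m, n, g1, g2, g3, g4⟩ := split_pow e
      (Nat.Coprime.coprime_mul_left_right (Nat.Coprime.coprime_mul_left hc)).symm
    exact ⟨m, n, g1, g2, Or.inr (Or.inr (Or.inr ⟨by rw [g3], by rw [g4]⟩))⟩
  · obtain ⟨Z, rfl⟩ := Nat.Coprime.mul_dvd_of_dvd_of_dvd h2l h2 h3
    have e : X * Z = a ^ 4 := by
      apply Nat.eq_of_mul_eq_mul_left hpos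
      rw [← h]; ring
    obtain ⟨m, n, g1, g2, g3, g4⟩ := split_pow e (Nat.Coprime.coprime_mul_left_right hc)
    exact ⟨m, n, g1, g2, Or.inl ⟨g3, by rw [g4]⟩⟩

/-- Coprime factors of a square. -/
theorem split_sq {X Y c : ℕ} (h : X * Y = c ^ 2) (hc : Nat.Coprime X Y) :
    ∃ r s : ℕ, c = r * s ∧ Nat.Coprime r s ∧ X = r ^ 2 ∧ Y = s ^ 2 := by
  obtain ⟨m, hm⟩ := exists_eq_pow_of_mul_eq_pow (a := X) (b := Y) (c := c) (k := 2)
    (by rw [Nat.isUnit_iff]; exact hc) h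
  obtain ⟨n, hn⟩ := exists_eq_pow_of_mul_eq_pow (a := Y) (b := X) (c := c) (k := 2)
    (by rw [Nat.isUnit_iff]; exact hc.symm) (by rw [mul_comm]; exact h)
  refine ⟨m, n, ?_, ?_, hm, hn⟩
  · apply Nat.pow_left_injective (n := 2) (by norm_num)
    show c ^ 2 = (m * n) ^ 2
    rw [mul_pow, ← hm, ← hn, h]
  · rw [hm, hn] at hc
    exact (Nat.coprime_pow_left_iff (by norm_num) _ _).1
      ((Nat.coprime_pow_right_iff (by norm_num) _ _).1 hc)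

/-- The parametrisation of `x ^ 2 + (2 z) ^ 2 = u ^ 2` for coprime `x`, `u`, `u` odd: `u = r ^ 2 + s ^ 2`,
`x + r ^ 2 = s ^ 2` and `z = r s`. -/
theorem param {x z u : ℕ} (hx : x % 2 = 1) (hu : u % 2 = 1) (hc : Nat.Coprime x u)
    (h : x ^ 2 + (2 * z) ^ 2 = u ^ 2) :
    ∃ r s : ℕ, z = r * s ∧ Nat.Coprime r s ∧ u = r ^ 2 + s ^ 2 ∧ x + r ^ 2 = s ^ 2 := by
  have hxu : x ≤ u := by
    by_contra h1
    have : u ^ 2 < x ^ 2 := Nat.pow_lt_pow_left (by omega) (by norm_num)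
    have : 0 ≤ (2 * z) ^ 2 := Nat.zero_le _
    omega
  obtain ⟨X, hX⟩ : ∃ X, u = x + 2 * X := ⟨(u - x) / 2, by omega⟩
  have e : X * (X + x) = z ^ 2 := by
    have : 4 * (X * (X + x)) = 4 * z ^ 2 := by
      have h1 := h
      rw [hX] at h1
      nlinarith [h1]
    omega
  have hcop : Nat.Coprime X (X + x) := by
    have h1 : Nat.Coprime x (2 * X) := by
      rw [hX] at hc
      simpa using hc
    have h2 : Nat.Coprime x X := Nat.Coprime.coprime_mul_left_right h1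
    simpa using h2.symm
  obtain ⟨r, s, g1, g2, g3, g4⟩ := split_sq e hcop
  exact ⟨r, s, g1, g2, by rw [hX, ← g3, ← g4]; ring, by rw [← g3, ← g4]; ring⟩

end Pool.Agent.PRB
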